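import Pool.Agent.H520Z.Sel.ADefs
import Pool.Agent.H464Z.ThetaB
import Pool.Agent.H949Z.Hecke.Main

set_option autoImplicit false

namespace Pool.Agent.Results.MP_bac04d_nt.AAllDegrees

open Pool.Agent.H520Z.Sel Filter Set

lemma ev_ne (f : ℂ → ℂ) (hf : Differentiable ℂ f) (z : ℂ) (hz : f z = 1) :
    ∀ᶠ s in Filter.codiscrete ℂ, ∀ n : ℕ, f s ≠ -(n : ℂ) := by
  have h1 : AnalyticOnNhd ℂ (fun s => (Complex.Gamma (f s))⁻¹) univ :=
    (Complex.differentiable_one_div_Gamma.comp hf).differentiableOn.analyticOnNhd isOpen_univ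
  rcases h1.eqOn_zero_or_eventually_ne_zero_of_preconnected isPreconnected_univ with h | h
  · have := h (mem_univ z)
    simp [hz] at this
  · refine (show ∀ᶠ s in Filter.codiscrete ℂ, _ from h).mono fun s hs n hn => hs ?_
    rw [hn, Complex.Gamma_neg_nat_eq_zero, inv_zero]

/-- For every real `d > 2` the class `𝒜^#_d` is non-empty; the witness is entire and its
Dirichlet series converges absolutely for `Re s > 1/2 + 1/d`. -/
theorem result : ∀ d : ℝ, 2 < d → ∃ F : ℂ → ℂ, InA F d ∧ Differentiable ℂ F ∧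
    ∃ a : ℕ → ℂ, ∀ s : ℂ, 1 / 2 + 1 / d < s.re → LSeriesSummable a s ∧ F s = LSeries a s := by
  intro d hd
  have hlam : 1 < d / 2 := by linarith
  obtain ⟨η, C, a, hη, ha0, ha1, ha, hsum, hFE⟩ := exotic_theta (d / 2) hlam
  obtain ⟨F, hF, -, hL, hfe, hstrip⟩ := hecke (d / 2) η 1 C (by linarith) hη a ha0 ha hFE
  have hd0 : 0 < d := by linarith
  have hser : ∀ s : ℂ, 1 / 2 + 1 / d < s.re →
      LSeriesSummable (fun n => (a n : ℂ)) s ∧ F s = LSeries (fun n => (a n : ℂ)) s := by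
    intro s hs
    have h1 : (1 + 1 / (d / 2)) / 2 < s.re := by
      have : (1 + 1 / (d / 2)) / 2 = 1 / 2 + 1 / d := by field_simp
      rwa [this]
    have h2 : LSeriesSummable (fun n => (a n : ℂ)) s := by
      refine Summable.of_norm ((hsum s.re h1).congr fun n => ?_)
      rw [LSeries.norm_term_eq]
      split_ifs with hn
      · simp [hn, ha0]
      · rw [Real.rpow_neg (Nat.cast_nonneg _), Complex.norm_real, Real.norm_eq_abs, div_eq_mul_inv]
    have h3 : 0 < 1 / d := by positivity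
    exact ⟨h2, hL s (by linarith) h2⟩
  refine ⟨F, ⟨fun z => (hF.analyticAt z).meromorphicAt, ⟨_, _, ⟨1, le_rfl, by simp [ha1]⟩, hser⟩,
    ⟨1, F, one_ne_zero, hF, Eventually.of_forall fun s => by simp, hstrip⟩,
    ⟨η ^ (-(d / 2)), 1, 1, 0, fun _ => d / 2, fun _ => 0, Fin.elim0, Fin.elim0,
      fun s => ((η ^ (-(d / 2)) : ℝ) : ℂ) ^ s * Complex.Gamma (((d / 2 : ℝ) : ℂ) * s) * F s,
      Real.rpow_pos_of_pos hη _, norm_one, fun _ => by linarith, fun j => j.elim0,
      fun s => by simp, ?_, by simp; ring⟩⟩, hF, _, hser⟩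
  have hne : ((d / 2 : ℝ) : ℂ) ≠ 0 := by exact_mod_cast (by linarith : d / 2 ≠ 0)
  have e1 := ev_ne (fun s => ((d / 2 : ℝ) : ℂ) * s) (by fun_prop) (((d / 2 : ℝ) : ℂ))⁻¹
    (mul_inv_cancel₀ hne)
  have e2 := ev_ne (fun s => ((d / 2 : ℝ) : ℂ) * (1 - s)) (by fun_prop) (1 - (((d / 2 : ℝ) : ℂ))⁻¹)
    (by simp only [sub_sub_cancel]; exact mul_inv_cancel₀ hne)
  filter_upwards [e1, e2] with s h1 h2
  rw [one_mul]
  refine hfe s h1 fun n hn => h2 n ?_
  have := congrArg (starRingEnd ℂ) hn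
  rw [map_mul, Complex.conj_ofReal] at this
  simpa using this

end Pool.Agent.Results.MP_bac04d_nt.AAllDegrees
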